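import Pool.Agent.Helper9.WS.LA

open Finset

namespace Pool.Agent.Helper9.WS

section

open scoped Polynomial

variable {L : Type} [Field L] (O : ValuationSubring L)

/-- one linear factor -/
private theorem factor57 (x : L) : ∃ (q : O[X]) (e : L),
    (1 - Polynomial.C x * Polynomial.X) = Polynomial.C e * q.map (algebraMap O L) ∧
    ((1 < O.valuation x ∧ q.map (IsLocalRing.residue O) = Polynomial.X) ∨
      (¬ 1 < O.valuation x ∧ ∃ y : O, (y : L) = x ∧
        q.map (IsLocalRing.residue O) = 1 - Polynomial.C (IsLocalRing.residue O y) * Polynomial.X)) := by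
  by_cases h : 1 < O.valuation x
  · have hx : x ≠ 0 := by
      rintro rfl
      rw [map_zero] at h
      exact absurd h (by simp)
    have hinv : O.valuation x⁻¹ < 1 := by
      rw [map_inv₀]
      exact inv_lt_one_of_one_lt₀ h
    obtain ⟨a, ha⟩ : ∃ a : O, (a : L) = x⁻¹ := ⟨⟨x⁻¹, (O.valuation_le_one_iff _).1 hinv.le⟩, rfl⟩
    refine ⟨Polynomial.X - Polynomial.C a, -x, ?_, Or.inl ⟨h, ?_⟩⟩
    · rw [Polynomial.map_sub, Polynomial.map_X, Polynomial.map_C]
      have h1 : algebraMap O L a = x⁻¹ := ha
      rw [h1, mul_sub, ← Polynomial.C_mul, neg_mul, mul_inv_cancel₀ hx]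
      simp only [map_neg, map_one]
      ring
    · rw [Polynomial.map_sub, Polynomial.map_X, Polynomial.map_C]
      have h1 : IsLocalRing.residue O a = 0 := by
        rw [IsLocalRing.residue_eq_zero_iff]
        exact (O.valuation_lt_one_iff a).2 (by rw [ha]; exact hinv)
      rw [h1, map_zero, sub_zero]
  · obtain ⟨y, hy⟩ : ∃ y : O, (y : L) = x := ⟨⟨x, (O.valuation_le_one_iff _).1 (not_lt.1 h)⟩, rfl⟩
    refine ⟨1 - Polynomial.C y * Polynomial.X, 1, ?_, Or.inr ⟨h, y, hy, ?_⟩⟩
    · have h1 : algebraMap O L y = x := hy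
      rw [Polynomial.map_sub, Polynomial.map_one, Polynomial.map_mul, Polynomial.map_X, Polynomial.map_C, h1, map_one, one_mul]
    · rw [Polynomial.map_sub, Polynomial.map_one, Polynomial.map_mul, Polynomial.map_X, Polynomial.map_C]

/-- WS-8a: an integral polynomial `c ∏ (1 - b i X)` with reduction `u X ^ k g`, `g 0 = 1`, `g`
separable -/
theorem roots_resid {D : ℕ} (b : Fin D → L) {c : L} {R : O[X]}
    (hR : R.map (algebraMap O L) = Polynomial.C c * ∏ i, (1 - Polynomial.C (b i) * Polynomial.X))
    {u : IsLocalRing.ResidueField O} (hu : u ≠ 0) {k : ℕ} {g : (IsLocalRing.ResidueField O)[X]}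
    (hg : R.map (IsLocalRing.residue O) = Polynomial.C u * Polynomial.X ^ k * g) (hg0 : g.coeff 0 = 1)
    (hgs : g.Separable) :
    (univ.filter fun i => 1 < O.valuation (b i)).card = k ∧
    (univ.filter fun i => O.valuation (b i) = 1).card = g.natDegree ∧
    ∀ i j, O.valuation (b i) = 1 → b i = b j → i = j := by
  classical
  choose q e hqe hq using fun i => factor57 O (b i)
  obtain ⟨S, hS⟩ : ∃ S : Finset (Fin D), S = univ.filter fun i => 1 < O.valuation (b i) := ⟨_, rfl⟩
  have hmemS : ∀ i, i ∈ S ↔ 1 < O.valuation (b i) := by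
    intro i
    rw [hS]
    simp
  obtain ⟨f, hf⟩ : ∃ f : Fin D → (IsLocalRing.ResidueField O)[X], ∀ i, f i = (q i).map (IsLocalRing.residue O) :=
    ⟨_, fun i => rfl⟩
  have hfS : ∀ i ∈ S, f i = Polynomial.X := by
    intro i hi
    rw [hf]
    rcases hq i with h | h
    · exact h.2
    · exact absurd ((hmemS i).1 hi) h.1
  have hfN : ∀ i ∈ Sᶜ, ∃ y : O, (y : L) = b i ∧ f i = 1 - Polynomial.C (IsLocalRing.residue O y) * Polynomial.X := by
    intro i hi
    rw [Finset.mem_compl, hmemS] at hi
    rcases hq i with h | h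
    · exact absurd h.1 hi
    · obtain ⟨y, hy, h1⟩ := h.2
      exact ⟨y, hy, by rw [hf]; exact h1⟩
  obtain ⟨G, hG⟩ : ∃ G : (IsLocalRing.ResidueField O)[X], G = ∏ i ∈ Sᶜ, f i := ⟨_, rfl⟩
  have hG0 : G.coeff 0 = 1 := by
    rw [hG, Polynomial.coeff_zero_prod]
    refine Finset.prod_eq_one fun i hi => ?_
    obtain ⟨y, -, h1⟩ := hfN i hi
    rw [h1]
    simp
  have hQ : (∏ i, q i).map (IsLocalRing.residue O) = Polynomial.X ^ S.card * G := by
    rw [Polynomial.map_prod, ← Finset.prod_mul_prod_compl S, hG]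
    congr 1
    · rw [Finset.prod_congr rfl fun i hi => by rw [← hf i, hfS i hi], Finset.prod_const]
    · exact Finset.prod_congr rfl fun i _ => (hf i).symm
  have hR1 : R.map (algebraMap O L) = Polynomial.C (c * ∏ i, e i) * (∏ i, q i).map (algebraMap O L) := by
    rw [hR, Finset.prod_congr rfl fun i _ => hqe i, Finset.prod_mul_distrib, Polynomial.map_prod, ← mul_assoc,
      Polynomial.C_mul, ← map_prod]
  -- the coefficient at `S.card` is a unit
  have hun : IsUnit ((∏ i, q i).coeff S.card) := by
    have h1 : IsLocalRing.residue O ((∏ i, q i).coeff S.card) = 1 := by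
      have h2 := congrArg (fun P => Polynomial.coeff P S.card) hQ
      simp only [Polynomial.coeff_map] at h2
      rw [h2, show S.card = 0 + S.card by ring, Polynomial.coeff_X_pow_mul', if_pos (by omega)]
      simpa using hG0
    by_contra h2
    have h3 : (∏ i, q i).coeff S.card ∈ IsLocalRing.maximalIdeal O := (IsLocalRing.mem_maximalIdeal _).2 h2
    rw [← IsLocalRing.residue_eq_zero_iff, h1] at h3
    exact one_ne_zero h3
  obtain ⟨w, hw⟩ := hun
  obtain ⟨c0, hc0⟩ : ∃ c0 : O, c0 = R.coeff S.card * (↑w⁻¹ : O) := ⟨_, rfl⟩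
  have hc0' : algebraMap O L c0 = c * ∏ i, e i := by
    have h1 := congrArg (fun P => Polynomial.coeff P S.card) hR1
    simp only [Polynomial.coeff_map, Polynomial.coeff_C_mul] at h1
    rw [hc0, map_mul, h1, mul_assoc, ← map_mul, ← hw, Units.mul_inv, map_one, mul_one]
  have hR2 : R = Polynomial.C c0 * ∏ i, q i := by
    apply Polynomial.map_injective (algebraMap O L) (IsFractionRing.injective O L)
    rw [hR1, Polynomial.map_mul, Polynomial.map_C, hc0']
  have hR3 : R.map (IsLocalRing.residue O) = Polynomial.C (IsLocalRing.residue O c0) * (Polynomial.X ^ S.card * G) := by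
    rw [hR2, Polynomial.map_mul, Polynomial.map_C, hQ]
  obtain ⟨z, hz⟩ : ∃ z : IsLocalRing.ResidueField O, z = IsLocalRing.residue O c0 := ⟨_, rfl⟩
  rw [hg, ← hz] at hR3
  have hg1 : g ≠ 0 := fun h => by
    rw [h, Polynomial.coeff_zero] at hg0
    exact zero_ne_one hg0
  have hG1 : G ≠ 0 := fun h => by
    rw [h, Polynomial.coeff_zero] at hG0
    exact zero_ne_one hG0
  have hz0 : z ≠ 0 := by
    intro h
    rw [h, map_zero, zero_mul] at hR3
    have h1 : Polynomial.C u * Polynomial.X ^ k * g ≠ 0 :=
      mul_ne_zero (mul_ne_zero (Polynomial.C_ne_zero.2 hu) (pow_ne_zero _ Polynomial.X_ne_zero)) hg1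
    exact h1 hR3
  have hkS : k = S.card := by
    have h1 : ∀ (a : IsLocalRing.ResidueField O) (n : ℕ) (P : (IsLocalRing.ResidueField O)[X]), a ≠ 0 → P.coeff 0 = 1 →
        (Polynomial.C a * (Polynomial.X ^ n * P)).natTrailingDegree = n := by
      intro a n P ha hP
      have hP0 : P.natTrailingDegree = 0 := by
        rw [Polynomial.natTrailingDegree_eq_zero]
        right
        rw [hP]
        exact one_ne_zero
      have hPne : P ≠ 0 := fun h => by
        rw [h, Polynomial.coeff_zero] at hP
        exact zero_ne_one hP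
      rw [Polynomial.natTrailingDegree_mul (Polynomial.C_ne_zero.2 ha) (mul_ne_zero (pow_ne_zero _ Polynomial.X_ne_zero) hPne),
        Polynomial.natTrailingDegree_mul (pow_ne_zero _ Polynomial.X_ne_zero) hPne, hP0]
      simp
    have h2 := h1 u k g hu hg0
    have h3 := h1 z S.card G hz0 hG0
    rw [← mul_assoc, hR3] at h2
    rw [h2] at h3
    exact h3
  have hGg : G = g := by
    rw [← hkS] at hR3
    have h1 : Polynomial.C u * g = Polynomial.C z * G := by
      have h2 : Polynomial.X ^ k * (Polynomial.C u * g) = Polynomial.X ^ k * (Polynomial.C z * G) := by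
        calc Polynomial.X ^ k * (Polynomial.C u * g) = Polynomial.C u * Polynomial.X ^ k * g := by ring
          _ = _ := hR3
          _ = _ := by ring
      exact mul_left_cancel₀ (pow_ne_zero _ Polynomial.X_ne_zero) h2
    have h3 : u = z := by
      have h4 := congrArg (fun P => Polynomial.coeff P 0) h1
      simp only [Polynomial.coeff_C_mul, hg0, hG0, mul_one] at h4
      exact h4
    rw [← h3] at h1
    exact (mul_left_cancel₀ (Polynomial.C_ne_zero.2 hu) h1).symm
  -- units
  have hres : ∀ y : O, IsLocalRing.residue O y ≠ 0 ↔ O.valuation (y : L) = 1 := by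
    intro y
    rw [← O.valuation_eq_one_iff, Ne, IsLocalRing.residue_eq_zero_iff, IsLocalRing.mem_maximalIdeal, mem_nonunits_iff, not_not]
  have hne : ∀ i ∈ Sᶜ, f i ≠ 0 := by
    intro i hi
    obtain ⟨y, -, h1⟩ := hfN i hi
    rw [h1]
    intro h
    have := congrArg (fun P => Polynomial.coeff P 0) h
    simp at this
  have hdeg : ∀ i ∈ Sᶜ, (f i).natDegree = if O.valuation (b i) = 1 then 1 else 0 := by
    intro i hi
    obtain ⟨y, hy, h1⟩ := hfN i hi
    rw [← hy, h1]
    by_cases h : O.valuation (y : L) = 1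
    · rw [if_pos h]
      have h2 := (hres y).2 h
      have h3 : (1 - Polynomial.C (IsLocalRing.residue O y) * Polynomial.X : (IsLocalRing.ResidueField O)[X]) =
          Polynomial.C (-IsLocalRing.residue O y) * Polynomial.X + Polynomial.C 1 := by
        simp only [map_neg, map_one]
        ring
      rw [h3]
      exact Polynomial.natDegree_linear (neg_ne_zero.2 h2)
    · rw [if_neg h]
      have h2 : IsLocalRing.residue O y = 0 := by
        by_contra h3
        exact h ((hres y).1 h3)
      rw [h2]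
      simp
  refine ⟨by rw [hkS, hS], ?_, ?_⟩
  · rw [← hGg, hG, Polynomial.natDegree_prod _ _ hne, Finset.sum_congr rfl hdeg, ← Finset.card_filter]
    congr 1
    ext i
    simp only [Finset.mem_filter, Finset.mem_univ, true_and, Finset.mem_compl, hmemS]
    constructor
    · intro h
      exact ⟨by rw [h]; exact lt_irrefl _, h⟩
    · exact fun h => h.2
  · intro i j hi hij
    by_contra hne'
    have hi' : i ∈ Sᶜ := by
      rw [Finset.mem_compl, hmemS, hi]
      exact lt_irrefl _
    have hj' : j ∈ Sᶜ := by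
      rw [Finset.mem_compl, hmemS, ← hij, hi]
      exact lt_irrefl _
    obtain ⟨y, hy, h1⟩ := hfN i hi'
    obtain ⟨y', hy', h1'⟩ := hfN j hj'
    have hyy : y = y' := by
      apply Subtype.ext
      rw [hy, hy', hij]
    have hfij : f i = f j := by rw [h1, h1', hyy]
    have h2 : f i * f i ∣ g := by
      rw [← hGg, hG, ← Finset.mul_prod_erase _ _ hi']
      refine mul_dvd_mul_left _ ?_
      rw [hfij]
      exact Finset.dvd_prod_of_mem _ (Finset.mem_erase.2 ⟨fun h => hne' h.symm, hj'⟩)
    have h3 := hgs.squarefree (f i) h2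
    have h4 := Polynomial.natDegree_eq_zero_of_isUnit h3
    rw [hdeg i hi', if_pos hi] at h4
    exact one_ne_zero h4

end

end Pool.Agent.Helper9.WS
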